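import Mathlib

/-!
# A conductor submonoid with infinite monotone catenary degree

`F = ℕ^5` is a free abelian monoid of finite rank. With the coordinates `β, γ, δ, x, y` let `M` be
the ideal of `F` generated by
`β, 2γ, γ + δ, 2δ, γ + 2x, γ + 2y, γ + x + y, δ + x + y`,
and `H = {0} ∪ M`. Then `H` is a conductor submonoid of `F` whose monotone catenary degree is
infinite: the element `(N+1) β + N γ + δ + N x + N y` has exactly two factorizations of length
`N + 1`, and these have no atom in common.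
-/

set_option autoImplicit false

namespace Pool.Agent.Results.MP_d1ccd0_al.InfiniteMonotone

/-- A submonoid `H` of the free abelian monoid `F = ℕ^s` is a conductor submonoid: `a + F ⊆ H` for
every non-invertible element `a` of `H` (the only invertible element is `0`). -/
def IsConductorSubmonoid {s : ℕ} (H : AddSubmonoid (Fin s → ℕ)) : Prop :=
  ∀ a ∈ H, a ≠ 0 → ∀ f : Fin s → ℕ, a + f ∈ H

section Factorizations

variable {s : ℕ} (H : AddSubmonoid (Fin s → ℕ))

/-- The atoms of the reduced monoid `H`. -/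
def IsAtomOf (a : Fin s → ℕ) : Prop :=
  a ∈ H ∧ a ≠ 0 ∧ ∀ b ∈ H, ∀ c ∈ H, a = b + c → b = 0 ∨ c = 0

/-- The set `Z(a)` of factorizations of `a`: multisets of atoms with sum `a`. -/
def Z (a : Fin s → ℕ) : Set (Multiset (Fin s → ℕ)) :=
  {z | (∀ x ∈ z, IsAtomOf H x) ∧ z.sum = a}

/-- The set of lengths of `a`. -/
def L (a : Fin s → ℕ) : Set ℕ := {k | ∃ z ∈ Z H a, z.card = k}

/-- The distance of two factorizations: cancel the greatest common divisor and take the maximum of
the lengths. -/
def dist {α : Type} [DecidableEq α] (z z' : Multiset α) : ℕ :=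
  max (z - z ∩ z').card (z' - z ∩ z').card

/-- There is a monotone `N`-chain in `Z(a)` from `z` to `z'`. -/
def MonotoneChain (a : Fin s → ℕ) (N : ℕ) (z z' : Multiset (Fin s → ℕ)) : Prop :=
  ∃ (r : ℕ) (c : ℕ → Multiset (Fin s → ℕ)), c 0 = z ∧ c r = z' ∧ (∀ i ≤ r, c i ∈ Z H a) ∧
    (∀ i < r, dist (c i) (c (i + 1)) ≤ N) ∧
    ((∀ i < r, (c i).card ≤ (c (i + 1)).card) ∨ (∀ i < r, (c (i + 1)).card ≤ (c i).card))

/-- `c_eq(a)`. -/
noncomputable def cEqAt (a : Fin s → ℕ) : ℕ∞ :=
  sInf {N : ℕ∞ | ∃ n : ℕ, N = n ∧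
    ∀ z ∈ Z H a, ∀ z' ∈ Z H a, z.card = z'.card → MonotoneChain H a n z z'}

/-- `c_eq(H)`. -/
noncomputable def cEq : ℕ∞ := ⨆ a ∈ H, cEqAt H a

/-- The distance of the sets of factorizations of `a` of lengths `k` and `l`. -/
noncomputable def distLen (a : Fin s → ℕ) (k l : ℕ) : ℕ∞ :=
  ⨅ z ∈ {z ∈ Z H a | z.card = k}, ⨅ z' ∈ {z ∈ Z H a | z.card = l}, (dist z z' : ℕ∞)

/-- `c_adj(a)`. -/
noncomputable def cAdjAt (a : Fin s → ℕ) : ℕ∞ :=
  sSup {d : ℕ∞ | ∃ k ∈ L H a, ∃ l ∈ L H a, k < l ∧ (∀ m ∈ L H a, ¬ (k < m ∧ m < l)) ∧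
    d = distLen H a k l}

/-- `c_adj(H)`. -/
noncomputable def cAdj : ℕ∞ := ⨆ a ∈ H, cAdjAt H a

/-- The monotone catenary degree. -/
noncomputable def cMon : ℕ∞ := max (cEq H) (cAdj H)

end Factorizations

/-! ### The monoid -/

/-- The ideal `M`. -/
def P (a : Fin 5 → ℕ) : Prop :=
  1 ≤ a 0 ∨ 2 ≤ a 1 ∨ (1 ≤ a 1 ∧ 1 ≤ a 2) ∨ 2 ≤ a 2 ∨
    (1 ≤ a 1 ∧ 2 ≤ a 3 + a 4) ∨ (1 ≤ a 2 ∧ 1 ≤ a 3 ∧ 1 ≤ a 4)

theorem P_add {a : Fin 5 → ℕ} (h : P a) (f : Fin 5 → ℕ) : P (a + f) := by
  unfold P at *
  simp only [Pi.add_apply]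
  omega

theorem not_P_zero : ¬ P 0 := by
  unfold P
  simp

/-- The submonoid `H`. -/
def H : AddSubmonoid (Fin 5 → ℕ) where
  carrier := {a | a = 0 ∨ P a}
  zero_mem' := Or.inl rfl
  add_mem' := by
    rintro a b (rfl | ha) hb
    · rwa [zero_add]
    · exact Or.inr (P_add ha b)

theorem mem_H {a : Fin 5 → ℕ} : a ∈ H ↔ a = 0 ∨ P a := Iff.rfl

theorem conductor : IsConductorSubmonoid H := by
  intro a ha h0 f
  rcases ha with ha | ha
  · exact absurd ha h0
  · exact Or.inr (P_add ha f)

/-- The vector with given coordinates. -/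
def vec (b g d x y : ℕ) : Fin 5 → ℕ := ![b, g, d, x, y]

theorem vec_ext (a : Fin 5 → ℕ) : a = vec (a 0) (a 1) (a 2) (a 3) (a 4) := by
  funext i
  fin_cases i <;> rfl

@[simp] theorem vec_0 (b g d x y : ℕ) : vec b g d x y 0 = b := rfl
@[simp] theorem vec_1 (b g d x y : ℕ) : vec b g d x y 1 = g := rfl
@[simp] theorem vec_2 (b g d x y : ℕ) : vec b g d x y 2 = d := rfl
@[simp] theorem vec_3 (b g d x y : ℕ) : vec b g d x y 3 = x := rfl
@[simp] theorem vec_4 (b g d x y : ℕ) : vec b g d x y 4 = y := rfl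

theorem vec_ne_zero {b g d x y : ℕ} (h : b ≠ 0) : vec b g d x y ≠ 0 := by
  intro h'
  exact h (congrFun h' 0)

/-- The constraints on an atom. -/
theorem atom_constraints {a : Fin 5 → ℕ} (ha : IsAtomOf H a) :
    a 0 ≤ 1 ∧ (a 0 = 1 → ¬ P (vec 0 (a 1) (a 2) (a 3) (a 4))) := by
  constructor
  · by_contra hc
    have h2 : 2 ≤ a 0 := by omega
    have h := ha.2.2 (vec 1 0 0 0 0) (Or.inr (Or.inl le_rfl))
      (vec (a 0 - 1) (a 1) (a 2) (a 3) (a 4)) (Or.inr (Or.inl (by simp only [vec_0]; omega)))
      (by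
        funext i
        fin_cases i
        · change a 0 = 1 + (a 0 - 1); omega
        · change a 1 = 0 + a 1; omega
        · change a 2 = 0 + a 2; omega
        · change a 3 = 0 + a 3; omega
        · change a 4 = 0 + a 4; omega)
    rcases h with h | h
    · exact vec_ne_zero one_ne_zero h
    · exact vec_ne_zero (by omega) h
  · intro h1 hP
    have h := ha.2.2 (vec 1 0 0 0 0) (Or.inr (Or.inl le_rfl))
      (vec 0 (a 1) (a 2) (a 3) (a 4)) (Or.inr hP)
      (by
        funext i
        fin_cases i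
        · change a 0 = 1 + 0; omega
        · change a 1 = 0 + a 1; omega
        · change a 2 = 0 + a 2; omega
        · change a 3 = 0 + a 3; omega
        · change a 4 = 0 + a 4; omega)
    rcases h with h | h
    · exact vec_ne_zero one_ne_zero h
    · rw [h] at hP
      exact not_P_zero hP

/-- A vector with first coordinate `1` whose rest is not in the ideal is an atom. -/
theorem atom_of {g d x y : ℕ} (h : ¬ P (vec 0 g d x y)) : IsAtomOf H (vec 1 g d x y) := by
  refine ⟨Or.inr (Or.inl le_rfl), vec_ne_zero one_ne_zero, ?_⟩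
  intro b hb c hc hbc
  rcases hb with hb | hb
  · exact Or.inl hb
  rcases hc with hc | hc
  · exact Or.inr hc
  exfalso
  have h0 : 1 = b 0 + c 0 := congrFun hbc 0
  have h1 : g = b 1 + c 1 := congrFun hbc 1
  have h2 : d = b 2 + c 2 := congrFun hbc 2
  have h3 : x = b 3 + c 3 := congrFun hbc 3
  have h4 : y = b 4 + c 4 := congrFun hbc 4
  apply h
  unfold P at hb hc ⊢
  simp only [vec_0, vec_1, vec_2, vec_3, vec_4]
  omega

/-- If all terms are at most `1` and the sum is the number of terms, then all terms are `1`. -/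
theorem all_one {α : Type} (m : Multiset α) (f : α → ℕ) (h1 : ∀ b ∈ m, f b ≤ 1)
    (hs : m.card ≤ (m.map f).sum) : ∀ b ∈ m, f b = 1 := by
  induction m using Multiset.induction_on with
  | empty => intro b hb; simp at hb
  | cons a m ih =>
    have h1' : ∀ b ∈ m, f b ≤ 1 := fun b hb => h1 b (Multiset.mem_cons_of_mem hb)
    have hle : (m.map f).sum ≤ m.card := by
      have := Multiset.sum_le_card_nsmul (m.map f) 1 (by
        intro x hx
        obtain ⟨b, hb, rfl⟩ := Multiset.mem_map.1 hx
        exact h1' b hb)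
      simpa using this
    have ha := h1 a (Multiset.mem_cons_self a m)
    rw [Multiset.card_cons, Multiset.map_cons, Multiset.sum_cons] at hs
    intro b hb
    rcases Multiset.mem_cons.1 hb with rfl | hb
    · omega
    · exact ih h1' (by omega) b hb

theorem all_zero {α : Type} (m : Multiset α) (f : α → ℕ) (hs : (m.map f).sum = 0) :
    ∀ b ∈ m, f b = 0 := by
  intro b hb
  have := Multiset.single_le_sum (fun x _ => Nat.zero_le x) (f b)
    (Multiset.mem_map_of_mem f hb)
  omega

/-- The sum of a coordinate. -/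
theorem coord (z : Multiset (Fin 5 → ℕ)) (i : Fin 5) : z.sum i = (z.map (fun a => a i)).sum := by
  induction z using Multiset.induction_on with
  | empty => rfl
  | cons a m ih => rw [Multiset.sum_cons, Multiset.map_cons, Multiset.sum_cons, Pi.add_apply, ih]

/-- The element. -/
def el (N : ℕ) : Fin 5 → ℕ := vec (N + 1) N 1 N N

/-- The first factorization. -/
def z₁ (N : ℕ) : Multiset (Fin 5 → ℕ) :=
  vec 1 0 1 N 0 ::ₘ Multiset.replicate N (vec 1 1 0 0 1)

/-- The second factorization. -/
def z₂ (N : ℕ) : Multiset (Fin 5 → ℕ) :=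
  vec 1 0 1 0 N ::ₘ Multiset.replicate N (vec 1 1 0 1 0)

theorem el_mem (N : ℕ) : el N ∈ H := Or.inr (Or.inl (by simp [el]))

theorem z₁_mem (N : ℕ) : z₁ N ∈ Z H (el N) := by
  constructor
  · intro x hx
    rcases Multiset.mem_cons.1 hx with rfl | hx
    · exact atom_of (by unfold P; simp)
    · rw [Multiset.eq_of_mem_replicate hx]
      exact atom_of (by unfold P; simp)
  · funext i
    rw [coord]
    unfold z₁ el
    rw [Multiset.map_cons, Multiset.sum_cons, Multiset.map_replicate, Multiset.sum_replicate]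
    fin_cases i
    · change 1 + N • 1 = N + 1; simp only [smul_eq_mul]; omega
    · change 0 + N • 1 = N; simp only [smul_eq_mul]; omega
    · change 1 + N • 0 = 1; simp only [smul_eq_mul]; omega
    · change N + N • 0 = N; simp only [smul_eq_mul]; omega
    · change 0 + N • 1 = N; simp only [smul_eq_mul]; omega

theorem z₂_mem (N : ℕ) : z₂ N ∈ Z H (el N) := by
  constructor
  · intro x hx
    rcases Multiset.mem_cons.1 hx with rfl | hx
    · exact atom_of (by unfold P; simp)
    · rw [Multiset.eq_of_mem_replicate hx]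
      exact atom_of (by unfold P; simp)
  · funext i
    rw [coord]
    unfold z₂ el
    rw [Multiset.map_cons, Multiset.sum_cons, Multiset.map_replicate, Multiset.sum_replicate]
    fin_cases i
    · change 1 + N • 1 = N + 1; simp only [smul_eq_mul]; omega
    · change 0 + N • 1 = N; simp only [smul_eq_mul]; omega
    · change 1 + N • 0 = 1; simp only [smul_eq_mul]; omega
    · change 0 + N • 1 = N; simp only [smul_eq_mul]; omega
    · change N + N • 0 = N; simp only [smul_eq_mul]; omega

theorem z₁_card (N : ℕ) : (z₁ N).card = N + 1 := by simp [z₁]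

theorem z₂_card (N : ℕ) : (z₂ N).card = N + 1 := by simp [z₂]

/-- The factorizations of length `N + 1`. -/
theorem two_factorizations (N : ℕ) (z : Multiset (Fin 5 → ℕ)) (hz : z ∈ Z H (el N))
    (hc : z.card = N + 1) : z = z₁ N ∨ z = z₂ N := by
  obtain ⟨hat, hs⟩ := hz
  have s0 : (z.map (fun a => a 0)).sum = N + 1 := by rw [← coord, hs]; rfl
  have s1 : (z.map (fun a => a 1)).sum = N := by rw [← coord, hs]; rfl
  have s2 : (z.map (fun a => a 2)).sum = 1 := by rw [← coord, hs]; rfl
  have s3 : (z.map (fun a => a 3)).sum = N := by rw [← coord, hs]; rfl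
  have s4 : (z.map (fun a => a 4)).sum = N := by rw [← coord, hs]; rfl
  -- every atom has first coordinate one
  have h0 : ∀ a ∈ z, a 0 = 1 :=
    all_one z (fun a => a 0) (fun a ha => (atom_constraints (hat a ha)).1) (by omega)
  have hP : ∀ a ∈ z, ¬ P (vec 0 (a 1) (a 2) (a 3) (a 4)) :=
    fun a ha => (atom_constraints (hat a ha)).2 (h0 a ha)
  have hP' : ∀ a ∈ z, a 1 + a 2 ≤ 1 ∧ (1 ≤ a 1 → a 3 + a 4 ≤ 1) ∧
      (1 ≤ a 2 → a 3 = 0 ∨ a 4 = 0) := by
    intro a ha
    have := hP a ha
    unfold P at this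
    simp only [vec_0, vec_1, vec_2, vec_3, vec_4] at this
    omega
  -- every atom has exactly one token
  have h12 : ∀ a ∈ z, a 1 + a 2 = 1 := by
    apply all_one z (fun a => a 1 + a 2) (fun a ha => (hP' a ha).1)
    rw [Multiset.sum_map_add, s1, s2, hc]
  -- the atom with the token `δ`
  have hd : ∃ d ∈ z, 1 ≤ d 2 := by
    by_contra hcon
    push Not at hcon
    have : (z.map (fun a => a 2)).sum = 0 := by
      apply Multiset.sum_eq_zero
      intro x hx
      obtain ⟨b, hb, rfl⟩ := Multiset.mem_map.1 hx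
      have := hcon b hb
      omega
    omega
  obtain ⟨d, hdz, hd2⟩ := hd
  obtain ⟨m, rfl⟩ := Multiset.exists_cons_of_mem hdz
  rw [Multiset.card_cons] at hc
  rw [Multiset.map_cons, Multiset.sum_cons] at s0 s1 s2 s3 s4
  have hd1 := h12 d hdz
  have hd0 := h0 d hdz
  have hd34 := (hP' d hdz).2.2 hd2
  have m2 : ∀ a ∈ m, a 2 = 0 := all_zero m (fun a => a 2) (by omega)
  have m1 : ∀ a ∈ m, a 1 = 1 := by
    intro a ha
    have := h12 a (Multiset.mem_cons_of_mem ha)
    have := m2 a ha
    omega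
  have m34 : ∀ a ∈ m, a 3 + a 4 ≤ 1 := by
    intro a ha
    apply (hP' a (Multiset.mem_cons_of_mem ha)).2.1
    rw [m1 a ha]
  have m0 : ∀ a ∈ m, a 0 = 1 := fun a ha => h0 a (Multiset.mem_cons_of_mem ha)
  have hsum34 : (m.map (fun a => a 3)).sum + (m.map (fun a => a 4)).sum ≤ N := by
    rw [← Multiset.sum_map_add]
    have := Multiset.sum_le_card_nsmul (m.map (fun a => a 3 + a 4)) 1 (by
      intro x hx
      obtain ⟨b, hb, rfl⟩ := Multiset.mem_map.1 hx
      exact m34 b hb)
    simp only [Multiset.card_map, smul_eq_mul, mul_one] at this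
    omega
  rcases hd34 with h | h
  · -- the second factorization
    right
    have e4 : (m.map (fun a => a 4)).sum = 0 := by omega
    have m4 : ∀ a ∈ m, a 4 = 0 := all_zero m (fun a => a 4) e4
    have m3 : ∀ a ∈ m, a 3 = 1 := by
      apply all_one m (fun a => a 3) (fun a ha => by have := m34 a ha; omega)
      omega
    unfold z₂
    congr 1
    · rw [vec_ext d]
      congr 1 <;> omega
    · rw [Multiset.eq_replicate]
      refine ⟨by omega, fun b hb => ?_⟩
      rw [vec_ext b, m0 b hb, m1 b hb, m2 b hb, m3 b hb, m4 b hb]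
  · left
    have e3 : (m.map (fun a => a 3)).sum = 0 := by omega
    have m3 : ∀ a ∈ m, a 3 = 0 := all_zero m (fun a => a 3) e3
    have m4 : ∀ a ∈ m, a 4 = 1 := by
      apply all_one m (fun a => a 4) (fun a ha => by have := m34 a ha; omega)
      omega
    unfold z₁
    congr 1
    · rw [vec_ext d]
      congr 1 <;> omega
    · rw [Multiset.eq_replicate]
      refine ⟨by omega, fun b hb => ?_⟩
      rw [vec_ext b, m0 b hb, m1 b hb, m2 b hb, m3 b hb, m4 b hb]

/-- The two factorizations have no common atom if `N ≥ 1`. -/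
theorem inter_eq (N : ℕ) (hN : 1 ≤ N) : z₁ N ∩ z₂ N = 0 := by
  apply Multiset.eq_zero_of_forall_notMem
  intro a h12
  obtain ⟨h1, h2⟩ := Multiset.mem_inter.1 h12
  rcases Multiset.mem_cons.1 h1 with h1 | h1
  · rcases Multiset.mem_cons.1 h2 with h2 | h2
    · rw [h1] at h2
      have : N = 0 := congrFun h2 3
      omega
    · rw [Multiset.eq_of_mem_replicate h2] at h1
      have : 1 = 0 := congrFun h1 1
      omega
  · rw [Multiset.eq_of_mem_replicate h1] at h2
    rcases Multiset.mem_cons.1 h2 with h2 | h2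
    · have : 1 = 0 := congrFun h2 1
      omega
    · have := congrFun (Multiset.eq_of_mem_replicate h2) 3
      have : 0 = 1 := this
      omega

theorem dist_eq (N : ℕ) (hN : 1 ≤ N) : dist (z₁ N) (z₂ N) = N + 1 := by
  unfold dist
  rw [inter_eq N hN, Multiset.sub_zero, Multiset.sub_zero, z₁_card, z₂_card, max_self]

/-- A monotone chain between the two factorizations has a long step. -/
theorem chain_bound (N n : ℕ) (hN : 1 ≤ N) (h : MonotoneChain H (el N) n (z₁ N) (z₂ N)) :
    N + 1 ≤ n := by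
  obtain ⟨r, c, hc0, hcr, hcZ, hcd, hcm⟩ := h
  -- all lengths are equal
  have hlen : ∀ i ≤ r, (c i).card = N + 1 := by
    intro i hi
    have h0 : (c 0).card = N + 1 := by rw [hc0, z₁_card]
    have hr : (c r).card = N + 1 := by rw [hcr, z₂_card]
    rcases hcm with hm | hm
    · have hmono : ∀ i j, i ≤ j → j ≤ r → (c i).card ≤ (c j).card := by
        intro i j hij
        induction j, hij using Nat.le_induction with
        | base => intro _; exact le_rfl
        | succ j _ ih => intro hj; exact (ih (by omega)).trans (hm j (by omega))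
      have a1 := hmono 0 i (Nat.zero_le i) hi
      have a2 := hmono i r hi le_rfl
      omega
    · have hmono : ∀ i j, i ≤ j → j ≤ r → (c j).card ≤ (c i).card := by
        intro i j hij
        induction j, hij using Nat.le_induction with
        | base => intro _; exact le_rfl
        | succ j _ ih => intro hj; exact (hm j (by omega)).trans (ih (by omega))
      have a1 := hmono 0 i (Nat.zero_le i) hi
      have a2 := hmono i r hi le_rfl
      omega
  have hne : z₁ N ≠ z₂ N := by
    intro he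
    have hi := inter_eq N hN
    rw [← he] at hi
    have hm : vec 1 0 1 N 0 ∈ z₁ N ∩ z₁ N :=
      Multiset.mem_inter.2 ⟨Multiset.mem_cons_self _ _, Multiset.mem_cons_self _ _⟩
    rw [hi] at hm
    exact absurd hm (Multiset.notMem_zero _)
  -- the first index with the second factorization
  have hex : ∃ i, i ≤ r ∧ c i = z₂ N := ⟨r, le_rfl, hcr⟩
  classical
  obtain ⟨hi, hci⟩ := Nat.find_spec hex
  have hpos : Nat.find hex ≠ 0 := by
    intro h0
    rw [h0, hc0] at hci
    exact hne hci
  obtain ⟨j, hj⟩ := Nat.exists_eq_succ_of_ne_zero hpos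
  have hj' : ¬ (j ≤ r ∧ c j = z₂ N) := Nat.find_min hex (by omega)
  rw [hj] at hi hci
  have hjr : j ≤ r := by omega
  have hcj : c j = z₁ N := by
    rcases two_factorizations N (c j) (hcZ j hjr) (hlen j hjr) with h | h
    · exact h
    · exact absurd ⟨hjr, h⟩ hj'
  have := hcd j (by omega)
  rw [hcj, show j + 1 = Nat.succ j from rfl, hci, dist_eq N hN] at this
  exact this

/-- There is a conductor submonoid of the free abelian monoid `ℕ^5` with infinite monotone catenary
degree. -/
theorem result : ∃ H : AddSubmonoid (Fin 5 → ℕ), IsConductorSubmonoid H ∧ cMon H = ⊤ := by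
  refine ⟨H, conductor, ?_⟩
  have hEq : cEq H = ⊤ := by
    rw [ENat.eq_top_iff_forall_ge]
    intro n
    refine le_trans ?_ (le_iSup₂ (f := fun a (_ : a ∈ H) => cEqAt H a) (el (n + 1))
      (el_mem (n + 1)))
    apply le_sInf
    rintro _ ⟨k, rfl, hk⟩
    have := chain_bound (n + 1) k (by omega) (hk _ (z₁_mem _) _ (z₂_mem _)
      (by rw [z₁_card, z₂_card]))
    exact_mod_cast (by omega : n ≤ k)
  unfold cMon
  rw [hEq]
  exact max_eq_left le_top

end Pool.Agent.Results.MP_d1ccd0_al.InfiniteMonotone
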